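import Mathlib

/-!
MP_c20641_lc, Part I: a canonical Ramsey theorem for finite lattice-valued (pseudo-)ultrametric
spaces.  Definitions and goals.
-/

namespace Pool.Agent.Helper81.LT

universe u

/-- A finite pseudo-ultrametric space with values in the bounded lattice `Λ`
(large values mean that the points are close). -/
structure Sp (Λ : Type u) [Lattice Λ] [BoundedOrder Λ] where
  A : Type
  fin : Finite A
  t : A → A → Λ
  refl : ∀ a, t a a = ⊤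
  symm : ∀ a b, t a b = t b a
  tri : ∀ a b c, t a b ⊓ t b c ≤ t a c

attribute [instance] Sp.fin

variable {Λ : Type u} [Lattice Λ] [BoundedOrder Λ]

/-- nonexpanding maps -/
def IsHom (S T : Sp Λ) (f : S.A → T.A) : Prop := ∀ a b, S.t a b ≤ T.t (f a) (f b)

/-- isometric maps -/
def IsIso (S T : Sp Λ) (f : S.A → T.A) : Prop := ∀ a b, T.t (f a) (f b) = S.t a b

/-- the equivalence relation contains the relation `t = ⊤` -/
def Resp (T : Sp Λ) (ρ : Setoid T.A) : Prop := ∀ a b, T.t a b = ⊤ → ρ a b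

/-- separated: `t a b = ⊤` only for `a = b` -/
def Sep (T : Sp Λ) : Prop := ∀ a b, T.t a b = ⊤ → a = b

/-- powers -/
def Sp.pow (S : Sp Λ) (I : Type) [Fintype I] : Sp Λ where
  A := I → S.A
  fin := inferInstance
  t := fun x y => Finset.univ.inf fun i => S.t (x i) (y i)
  refl := fun a => by
    simp only [S.refl]
    exact Finset.inf_top _
  symm := fun a b => by simp only [S.symm]
  tri := fun a b c => by
    refine Finset.le_inf fun i _ => ?_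
    refine le_trans (le_inf ?_ ?_) (S.tri (a i) (b i) (c i))
    · exact le_trans inf_le_left (Finset.inf_le (Finset.mem_univ i))
    · exact le_trans inf_le_right (Finset.inf_le (Finset.mem_univ i))

/-! ### Goals that speak about `Λ` -/

/-- necklace lemma -/
def NECK (Λ : Type u) [Lattice Λ] [BoundedOrder Λ] : Prop :=
  ∀ (S P : Sp Λ) (a b : P.A) (p q : S.A), P.t a b ≤ S.t p q →
    ∃ (T : Sp Λ) (ι : S.A → T.A) (f₀ f₁ f₂ : P.A → T.A),
      IsIso S T ι ∧ IsHom P T f₀ ∧ IsHom P T f₁ ∧ IsHom P T f₂ ∧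
      T.t (ι p) (f₀ a) = ⊤ ∧ T.t (f₀ b) (f₁ a) = ⊤ ∧ T.t (f₁ b) (f₂ a) = ⊤ ∧
      T.t (f₂ b) (ι q) = ⊤

def STEP (Λ : Type u) [Lattice Λ] [BoundedOrder Λ] : Prop :=
  ∀ S P : Sp Λ, ∃ (T : Sp Λ) (ι : S.A → T.A), IsIso S T ι ∧
    ∀ ρ : Setoid T.A, Resp T ρ →
      (∀ a b : P.A, (∀ f, IsHom P T f → ρ (f a) (f b)) →
        ∀ p q : S.A, P.t a b ≤ S.t p q → ρ (ι p) (ι q)) ∧
      (∀ x y : Λ, (∀ c d : T.A, x ≤ T.t c d → ρ c d) → (∀ c d : T.A, y ≤ T.t c d → ρ c d) →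
        ∀ p q : S.A, x ⊓ y ≤ S.t p q → ρ (ι p) (ι q))

def GOOD (Λ : Type u) [Lattice Λ] [BoundedOrder Λ] : Prop :=
  ∀ P : Sp Λ, ∃ T : Sp Λ, ∀ ρ : Setoid T.A, Resp T ρ →
    ∃ (s : Λ) (F : Set (P.A → T.A)), (∀ f ∈ F, IsHom P T f) ∧ (∃ e ∈ F, IsIso P T e) ∧
      (∀ f ∈ F, ∀ a b, s ≤ P.t a b → ρ (f a) (f b)) ∧
      (∀ a b, ¬ s ≤ P.t a b → ∃ f ∈ F, ¬ ρ (f a) (f b) ∧ (fun _ => f b) ∈ F)

/-- the canonical Ramsey theorem -/
def THMR (Λ : Type u) [Lattice Λ] [BoundedOrder Λ] : Prop :=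
  ∀ S : Sp Λ, ∃ T : Sp Λ, ∀ Θ : Setoid T.A, Resp T Θ →
    ∃ (φ : S.A → T.A) (s : Λ), IsIso S T φ ∧ ∀ a b, Θ (φ a) (φ b) ↔ s ≤ S.t a b

/-- the canonical Ramsey theorem, separated form -/
def THMS (Λ : Type u) [Lattice Λ] [BoundedOrder Λ] : Prop :=
  ∀ S : Sp Λ, Sep S → ∃ T : Sp Λ, Sep T ∧ ∀ Θ : Setoid T.A,
    ∃ (φ : S.A → T.A) (s : Λ), IsIso S T φ ∧ ∀ a b, Θ (φ a) (φ b) ↔ s ≤ S.t a b

/-! ### Goals that do not speak about `Λ` -/

/-- subspace maps: every coordinate is a constant or a variable, every variable occurs -/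
def IsSub {A I : Type} {M : ℕ} (σ : (Fin M → A) → I → A) : Prop :=
  (∀ k, (∃ i, ∀ w, σ w k = w i) ∨ ∃ c, ∀ w, σ w k = c) ∧ ∀ i, ∃ k, ∀ w, σ w k = w i

def IND : Prop :=
  ∀ (M : ℕ) (A C : Type) [Finite A] [Finite C], ∃ (I : Type) (_ : Fintype I),
    ∀ Θ : Setoid ((I → A) × C), ∃ σ : (Fin M → A) → I → A, IsSub σ ∧
      ∀ (j : Fin M) (x y : Fin M → A) (c d : C) (e : A), x j = y j →
        (Θ (σ x, c) (σ y, d) ↔
          Θ (σ (Function.update x j e), c) (σ (Function.update y j e), d))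

/-- Ramsey's theorem for pairs, finitely many colours -/
def RAM : Prop :=
  ∀ (κ : Type) [Finite κ] (M : ℕ), ∃ N : ℕ, ∀ c : ℕ → ℕ → κ,
    ∃ (g : ℕ → ℕ) (k : κ), (∀ i j, i < j → j ≤ M → g i < g j) ∧ (∀ i, i ≤ M → g i ≤ N) ∧
      ∀ i j, i < j → j ≤ M → c (g i) (g j) = k

/-- put the letter `a` on the coordinates in `[p, q)` -/
def fillI {A : Type} {M : ℕ} (x : Fin M → A) (p q : ℕ) (a : A) : Fin M → A :=
  fun i => if p ≤ i.val ∧ i.val < q then a else x i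

def INT : Prop :=
  ∀ (A : Type) [Finite A] [Nonempty A] (M : ℕ), ∃ (I : Type) (_ : Fintype I),
    ∀ Θ : Setoid (I → A), ∃ (σ : (Fin M → A) → I → A) (ρ : Setoid A), IsSub σ ∧
      (∀ (p q : ℕ), p < q → q ≤ M → ∀ (x : Fin M → A) (a b : A),
        Θ (σ (fillI x p q a)) (σ (fillI x p q b)) ↔ ρ a b)

def COUNT : Prop :=
  ∀ (r : ℕ) (Bad : Fin r → (Fin r → Fin (r + 1)) → Prop),
    (∀ l g v w, Bad l (Function.update g l v) → Bad l (Function.update g l w) → v = w) →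
      ∃ g, ∀ l, ¬ Bad l g

end Pool.Agent.Helper81.LT
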