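import Mathlib

/-!
MP_c20641_lc: the language of arithmetic and the axioms of Peano arithmetic.
-/

namespace Pool.Agent.Helper81.LT

open FirstOrder Language

/-- The function symbols `0`, `1`, `+`, `·` of the language of arithmetic. -/
inductive AFun : ℕ → Type
  | zero : AFun 0
  | one : AFun 0
  | add : AFun 2
  | mul : AFun 2

/-- The relation symbol `<` of the language of arithmetic. -/
inductive ARel : ℕ → Type
  | lt : ARel 2

/-- The first-order language of arithmetic `{0, 1, +, ·, <}`. -/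
def LA : FirstOrder.Language.{0, 0} := ⟨AFun, ARel⟩

section Syntax

variable {α : Type} {n : ℕ}

instance : Zero (LA.Term α) := ⟨Constants.term (L := LA) AFun.zero⟩
instance : One (LA.Term α) := ⟨Constants.term (L := LA) AFun.one⟩
instance : Add (LA.Term α) := ⟨Functions.apply₂ (L := LA) AFun.add⟩
instance : Mul (LA.Term α) := ⟨Functions.apply₂ (L := LA) AFun.mul⟩

/-- the atomic formula `s < t` -/
def ltF (s t : LA.Term (α ⊕ Fin n)) : LA.BoundedFormula α n :=
  Relations.boundedFormula₂ (L := LA) ARel.lt s t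

/-- the `i`-th of `n` variables -/
def X (n : ℕ) (i : Fin n) : LA.Term (Empty ⊕ Fin n) := Term.var (Sum.inr i)

/-- The axioms of discretely ordered semirings (`PA` without induction). -/
inductive PABase : LA.Sentence → Prop
  | add_assoc : PABase (∀' ∀' ∀' (((X 3 0 + X 3 1) + X 3 2) =' (X 3 0 + (X 3 1 + X 3 2))))
  | add_comm : PABase (∀' ∀' ((X 2 0 + X 2 1) =' (X 2 1 + X 2 0)))
  | add_zero : PABase (∀' ((X 1 0 + 0) =' (X 1 0)))
  | mul_assoc : PABase (∀' ∀' ∀' (((X 3 0 * X 3 1) * X 3 2) =' (X 3 0 * (X 3 1 * X 3 2))))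
  | mul_comm : PABase (∀' ∀' ((X 2 0 * X 2 1) =' (X 2 1 * X 2 0)))
  | mul_zero : PABase (∀' ((X 1 0 * 0) =' 0))
  | mul_one : PABase (∀' ((X 1 0 * 1) =' (X 1 0)))
  | mul_add : PABase (∀' ∀' ∀' ((X 3 0 * (X 3 1 + X 3 2)) =' (X 3 0 * X 3 1 + X 3 0 * X 3 2)))
  | lt_trans : PABase (∀' ∀' ∀' (ltF (X 3 0) (X 3 1) ⟹ ltF (X 3 1) (X 3 2) ⟹
      ltF (X 3 0) (X 3 2)))
  | lt_irrefl : PABase (∀' ∼(ltF (X 1 0) (X 1 0)))
  | lt_total : PABase (∀' ∀' (ltF (X 2 0) (X 2 1) ⊔ ((X 2 0) =' (X 2 1)) ⊔ ltF (X 2 1) (X 2 0)))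
  | add_lt : PABase (∀' ∀' ∀' (ltF (X 3 0) (X 3 1) ⟹ ltF (X 3 0 + X 3 2) (X 3 1 + X 3 2)))
  | mul_lt : PABase (∀' ∀' ∀' (ltF 0 (X 3 2) ⟹ ltF (X 3 0) (X 3 1) ⟹
      ltF (X 3 0 * X 3 2) (X 3 1 * X 3 2)))
  | sub : PABase (∀' ∀' (ltF (X 2 0) (X 2 1) ⟹ ∃' ((X 3 0 + X 3 2) =' (X 3 1))))
  | zero_lt_one : PABase (ltF 0 1)
  | discrete : PABase (∀' (ltF 0 (X 1 0) ⟹ ((1 =' (X 1 0)) ⊔ ltF 1 (X 1 0))))
  | nonneg : PABase (∀' ((0 =' (X 1 0)) ⊔ ltF 0 (X 1 0)))

/-- The induction axiom for the formula `φ(p, x)`: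
`∀ p, φ(p, 0) → (∀ x, φ(p, x) → φ(p, x + 1)) → ∀ x, φ(p, x)`. -/
noncomputable def induction {k : ℕ} (φ : LA.Formula (Fin k ⊕ Unit)) : LA.Sentence :=
  let φ0 : LA.Formula (Fin k) := φ.subst (Sum.elim Term.var fun _ => 0)
  let φS : LA.Formula (Fin k ⊕ Unit) :=
    φ.subst (Sum.elim (fun i => Term.var (Sum.inl i)) fun _ => Term.var (Sum.inr ()) + 1)
  let ind : LA.Formula (Fin k) :=
    φ0.imp ((Formula.iAlls Unit (φ.imp φS)).imp (Formula.iAlls Unit φ))
  Formula.iAlls (Fin k) (Formula.relabel (Sum.inr : Fin k → Empty ⊕ Fin k) ind)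

/-- First-order Peano arithmetic. -/
def PA : LA.Theory := {σ | PABase σ ∨ ∃ (k : ℕ) (φ : LA.Formula (Fin k ⊕ Unit)), σ = induction φ}

end Syntax

section Semantics

variable (M : Type)

/-- The `LA`-structure of a type with `0`, `1`, `+`, `·` and `<`. -/
@[reducible] def stdStr [Zero M] [One M] [Add M] [Mul M] [LT M] : LA.Structure M where
  funMap := fun {_} f => match f with
    | AFun.zero => fun _ => 0
    | AFun.one => fun _ => 1
    | AFun.add => fun v => v 0 + v 1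
    | AFun.mul => fun v => v 0 * v 1
  RelMap := fun {_} r => match r with
    | ARel.lt => fun v => v 0 < v 1

/-- the standard model -/
instance natStr : LA.Structure ℕ := stdStr ℕ

end Semantics

section RealizeStd

variable {M : Type} [Zero M] [One M] [Add M] [Mul M] [LT M] {α : Type} {n : ℕ}

attribute [local instance] stdStr

@[simp] theorem realize_tzero (v : α → M) : (0 : LA.Term α).realize v = 0 := rfl
@[simp] theorem realize_tone (v : α → M) : (1 : LA.Term α).realize v = 1 := rfl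
@[simp] theorem realize_tadd (s t : LA.Term α) (v : α → M) :
    (s + t).realize v = s.realize v + t.realize v := rfl
@[simp] theorem realize_tmul (s t : LA.Term α) (v : α → M) :
    (s * t).realize v = s.realize v * t.realize v := rfl
@[simp] theorem realize_ltF (s t : LA.Term (α ⊕ Fin n)) (v : α → M) (xs : Fin n → M) :
    (ltF s t).Realize v xs ↔ s.realize (Sum.elim v xs) < t.realize (Sum.elim v xs) := Iff.rfl

end RealizeStd

end Pool.Agent.Helper81.LT
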