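import Pool.Agent.Helper81.LT.Defs

/-!
MP_c20641_lc: definable predicates and functions (with parameters) of a structure for the language
of arithmetic, and their closure properties.
-/

namespace Pool.Agent.Helper81.LT

open FirstOrder Language

section General

variable {M : Type} [LA.Structure M] {α β : Type}

/-- `f` is given by a term with parameters (the variable `Sum.inr p` stands for the parameter
`p : M`). -/
def Tm (f : (α → M) → M) : Prop := ∃ t : LA.Term (α ⊕ M), ∀ v, t.realize (Sum.elim v id) = f v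

/-- `P` is given by a formula with parameters (the variable `Sum.inr p` stands for the parameter
`p : M`). -/
def Dfn (P : (α → M) → Prop) : Prop :=
  ∃ φ : LA.Formula (α ⊕ M), ∀ v, φ.Realize (Sum.elim v id) ↔ P v

theorem Tm.var (a : α) : Tm (fun v : α → M => v a) := ⟨Term.var (Sum.inl a), fun _ => rfl⟩

theorem Tm.par (p : M) : Tm (fun _ : α → M => p) := ⟨Term.var (Sum.inr p), fun _ => rfl⟩

/-- substitution of terms in a term -/
theorem Tm.subst {f : (β → M) → M} (hf : Tm f) {g : β → (α → M) → M} (hg : ∀ b, Tm (g b)) :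
    Tm (fun v => f (fun b => g b v)) := by
  obtain ⟨t, ht⟩ := hf
  choose s hs using hg
  refine ⟨t.subst (Sum.elim s fun p => Term.var (Sum.inr p)), fun v => ?_⟩
  rw [Term.realize_subst]
  refine Eq.trans ?_ (ht fun b => g b v)
  congr 1
  funext i
  cases i with
  | inl b => exact hs b v
  | inr p => rfl

namespace Dfn

theorem congr {P Q : (α → M) → Prop} (hP : Dfn P) (h : ∀ v, P v ↔ Q v) : Dfn Q := by
  obtain ⟨φ, hφ⟩ := hP
  exact ⟨φ, fun v => (hφ v).trans (h v)⟩

theorem eq {f g : (α → M) → M} (hf : Tm f) (hg : Tm g) : Dfn (fun v => f v = g v) := by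
  obtain ⟨t, ht⟩ := hf
  obtain ⟨s, hs⟩ := hg
  exact ⟨t.equal s, fun v => by rw [Formula.realize_equal, ht, hs]⟩

theorem not {P : (α → M) → Prop} (hP : Dfn P) : Dfn (fun v => ¬ P v) := by
  obtain ⟨φ, hφ⟩ := hP
  exact ⟨φ.not, fun v => by rw [Formula.realize_not, hφ]⟩

theorem ne {f g : (α → M) → M} (hf : Tm f) (hg : Tm g) : Dfn (fun v => f v ≠ g v) :=
  (Dfn.eq hf hg).not

theorem and {P Q : (α → M) → Prop} (hP : Dfn P) (hQ : Dfn Q) : Dfn (fun v => P v ∧ Q v) := by
  obtain ⟨φ, hφ⟩ := hP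
  obtain ⟨ψ, hψ⟩ := hQ
  exact ⟨φ ⊓ ψ, fun v => by rw [Formula.realize_inf, hφ, hψ]⟩

theorem or {P Q : (α → M) → Prop} (hP : Dfn P) (hQ : Dfn Q) : Dfn (fun v => P v ∨ Q v) := by
  obtain ⟨φ, hφ⟩ := hP
  obtain ⟨ψ, hψ⟩ := hQ
  exact ⟨φ ⊔ ψ, fun v => by rw [Formula.realize_sup, hφ, hψ]⟩

theorem imp {P Q : (α → M) → Prop} (hP : Dfn P) (hQ : Dfn Q) : Dfn (fun v => P v → Q v) := by
  obtain ⟨φ, hφ⟩ := hP
  obtain ⟨ψ, hψ⟩ := hQ
  exact ⟨φ.imp ψ, fun v => by rw [Formula.realize_imp, hφ, hψ]⟩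

theorem iff {P Q : (α → M) → Prop} (hP : Dfn P) (hQ : Dfn Q) : Dfn (fun v => P v ↔ Q v) :=
  ((hP.imp hQ).and (hQ.imp hP)).congr fun _ => iff_iff_implies_and_implies.symm

/-- a proposition that does not depend on the variables -/
theorem prop (p : Prop) : Dfn (fun _ : α → M => p) := by
  by_cases hp : p
  · exact ⟨⊤, fun v => by simp [hp]⟩
  · exact ⟨⊥, fun v => by simp [hp]⟩

/-- Existential quantification over one variable. -/
theorem ex {P : (α → M) → M → Prop}
    (hP : Dfn (fun u : α ⊕ Unit → M => P (fun a => u (Sum.inl a)) (u (Sum.inr ())))) :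
    Dfn (fun v : α → M => ∃ x : M, P v x) := by
  obtain ⟨φ, hφ⟩ := hP
  refine ⟨(φ.relabel (Sum.elim (Sum.elim (fun a => Sum.inl (Sum.inl a)) fun _ => Sum.inr ())
    fun p => Sum.inl (Sum.inr p)) : LA.Formula ((α ⊕ M) ⊕ Unit)).iExs Unit, fun v => ?_⟩
  rw [Formula.realize_iExs]
  constructor
  · rintro ⟨w, hw⟩
    rw [Formula.realize_relabel] at hw
    refine ⟨w (), ?_⟩
    have h := (hφ (Sum.elim v fun _ => w ())).1
    refine h ?_
    convert hw using 1
    funext i
    rcases i with (a | u) | p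
    · rfl
    · rfl
    · rfl
  · rintro ⟨x, hx⟩
    refine ⟨fun _ => x, ?_⟩
    rw [Formula.realize_relabel]
    have h := (hφ (Sum.elim v fun _ => x)).2 hx
    convert h using 1
    funext i
    rcases i with (a | u) | p
    · rfl
    · rfl
    · rfl

theorem all {P : (α → M) → M → Prop}
    (hP : Dfn (fun u : α ⊕ Unit → M => P (fun a => u (Sum.inl a)) (u (Sum.inr ())))) :
    Dfn (fun v : α → M => ∀ x : M, P v x) :=
  (Dfn.ex (P := fun v x => ¬ P v x) hP.not).not.congr fun _ => not_exists_not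

/-- finite conjunctions -/
theorem allFin {ι : Type} [Finite ι] {P : ι → (α → M) → Prop} (h : ∀ i, Dfn (P i)) :
    Dfn (fun v => ∀ i, P i v) := by
  choose φ hφ using h
  refine ⟨Formula.iInf φ, fun v => ?_⟩
  rw [Formula.realize_iInf]
  exact forall_congr' fun i => hφ i v

/-- finite disjunctions -/
theorem exFin {ι : Type} [Finite ι] {P : ι → (α → M) → Prop} (h : ∀ i, Dfn (P i)) :
    Dfn (fun v => ∃ i, P i v) :=
  (Dfn.allFin (P := fun i v => ¬ P i v) fun i => (h i).not).not.congr fun v => by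
    simp only [not_forall, not_not]

/-- substitution of terms in a predicate -/
theorem subst {P : (β → M) → Prop} (hP : Dfn P) {g : β → (α → M) → M} (hg : ∀ b, Tm (g b)) :
    Dfn (fun v => P (fun b => g b v)) := by
  obtain ⟨φ, hφ⟩ := hP
  choose s hs using hg
  refine ⟨φ.subst (Sum.elim s fun p => Term.var (Sum.inr p)), fun v => ?_⟩
  rw [Formula.Realize, BoundedFormula.realize_subst, ← Formula.Realize]
  refine Iff.trans ?_ (hφ fun b => g b v)
  have h : (fun i : β ⊕ M => Term.realize (Sum.elim v id)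
      ((Sum.elim s fun p => Term.var (Sum.inr p)) i)) = Sum.elim (fun b => g b v) id := by
    funext i
    cases i with
    | inl b => exact hs b v
    | inr p => rfl
  rw [h]

theorem comp {P : (β → M) → Prop} (hP : Dfn P) (g : β → α) : Dfn (fun v => P (fun b => v (g b))) :=
  hP.subst fun b => Tm.var (g b)

/-- definable unary and binary relations applied to terms -/
theorem app₁ {R : M → Prop} (hR : Dfn (fun v : Unit → M => R (v ()))) {f : (α → M) → M}
    (hf : Tm f) : Dfn (fun v => R (f v)) :=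
  hR.subst (g := fun _ => f) fun _ => hf

theorem app₂ {R : M → M → Prop} (hR : Dfn (fun v : Fin 2 → M => R (v 0) (v 1)))
    {f g : (α → M) → M} (hf : Tm f) (hg : Tm g) : Dfn (fun v => R (f v) (g v)) :=
  hR.subst (g := ![f, g]) fun b => by fin_cases b <;> assumption

end Dfn

end General

section Std

attribute [local instance] stdStr

variable {M : Type} [Zero M] [One M] [Add M] [Mul M] [LT M] {α : Type}

namespace Tm

theorem zero : Tm (fun _ : α → M => (0 : M)) := ⟨0, fun _ => rfl⟩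
theorem one : Tm (fun _ : α → M => (1 : M)) := ⟨1, fun _ => rfl⟩

theorem add {f g : (α → M) → M} (hf : Tm f) (hg : Tm g) : Tm (fun v => f v + g v) := by
  obtain ⟨t, ht⟩ := hf
  obtain ⟨s, hs⟩ := hg
  exact ⟨t + s, fun v => by rw [realize_tadd, ht, hs]⟩

theorem mul {f g : (α → M) → M} (hf : Tm f) (hg : Tm g) : Tm (fun v => f v * g v) := by
  obtain ⟨t, ht⟩ := hf
  obtain ⟨s, hs⟩ := hg
  exact ⟨t * s, fun v => by rw [realize_tmul, ht, hs]⟩

end Tm

theorem Dfn.lt {f g : (α → M) → M} (hf : Tm f) (hg : Tm g) : Dfn (fun v => f v < g v) := by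
  obtain ⟨t, ht⟩ := hf
  obtain ⟨s, hs⟩ := hg
  refine ⟨Relations.formula₂ (L := LA) ARel.lt t s, fun v => ?_⟩
  rw [Formula.realize_rel₂, ht, hs]
  exact Iff.rfl

end Std

section Std2

attribute [local instance] stdStr

variable {M : Type} [CommSemiring M] [LinearOrder M] {α : Type}

theorem Dfn.le {f g : (α → M) → M} (hf : Tm f) (hg : Tm g) : Dfn (fun v => f v ≤ g v) :=
  (Dfn.lt hg hf).not.congr fun _ => not_lt

/-- bounded universal quantification -/
theorem Dfn.ball {P : (α → M) → M → Prop} {f : (α → M) → M} (hf : Tm f)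
    (hP : Dfn (fun u : α ⊕ Unit → M => P (fun a => u (Sum.inl a)) (u (Sum.inr ())))) :
    Dfn (fun v : α → M => ∀ x : M, x < f v → P v x) :=
  Dfn.all (P := fun v x => x < f v → P v x)
    ((Dfn.lt (Tm.var (Sum.inr ())) (hf.subst fun a => Tm.var (Sum.inl a))).imp hP)

/-- bounded existential quantification -/
theorem Dfn.bex {P : (α → M) → M → Prop} {f : (α → M) → M} (hf : Tm f)
    (hP : Dfn (fun u : α ⊕ Unit → M => P (fun a => u (Sum.inl a)) (u (Sum.inr ())))) :
    Dfn (fun v : α → M => ∃ x : M, x < f v ∧ P v x) :=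
  Dfn.ex (P := fun v x => x < f v ∧ P v x)
    ((Dfn.lt (Tm.var (Sum.inr ())) (hf.subst fun a => Tm.var (Sum.inl a))).and hP)

theorem Tm.natCast (n : ℕ) : Tm (fun _ : α → M => (n : M)) := Tm.par _

end Std2

end Pool.Agent.Helper81.LT
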