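import Pool.Agent.Helper81.LT.Noneq

/-!
MP_c20641_lc: final assembly.
-/

namespace Pool.Agent.Helper81.LT

open FirstOrder Language

attribute [local instance] stdStr

/-- the standard model has no proper elementary substructure -/
theorem mem_nat (K : LA.ElementarySubstructure ℕ) (n : ℕ) : n ∈ K := by
  induction n with
  | zero =>
    have h := K.toSubstructure.fun_mem (AFun.zero : LA.Functions 0) (fun i => i.elim0)
      (fun i => i.elim0)
    exact h
  | succ n ih =>
    have h1 : (1 : ℕ) ∈ K.toSubstructure :=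
      K.toSubstructure.fun_mem (AFun.one : LA.Functions 0) (fun i => i.elim0) (fun i => i.elim0)
    have h := K.toSubstructure.fun_mem (AFun.add : LA.Functions 2) ![n, 1] (by
      intro i
      fin_cases i
      · exact ih
      · exact h1)
    exact h

theorem trivial_case (Λ : Type) [Lattice Λ] [Nonempty Λ] [Subsingleton Λ] :
    Nonempty (Λ ≃o LA.ElementarySubstructure ℕ) := by
  have h : ∀ K K' : LA.ElementarySubstructure ℕ, K = K' := fun K K' =>
    SetLike.ext fun n => ⟨fun _ => mem_nat K' n, fun _ => mem_nat K n⟩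
  obtain ⟨a⟩ := ‹Nonempty Λ›
  refine ⟨⟨⟨fun _ => ⊤, fun _ => a, fun _ => Subsingleton.elim _ _, fun K => h _ _⟩, ?_⟩⟩
  intro x y
  exact ⟨fun _ => le_of_eq (Subsingleton.elim _ _), fun _ => le_refl _⟩

theorem main (hR : ∀ (Λ : Type) [Lattice Λ] [BoundedOrder Λ] [Finite Λ], THMS Λ)
    (hN : NATPA) (hP : PRIME) (hT : TSP) (hS : SEQ) (hL : LATT)
    (Λ : Type) [Lattice Λ] [Finite Λ] [Nonempty Λ] :
    ∃ (N : Type) (_ : LA.Structure N), N ⊨ PA ∧ Nonempty (Λ ≃o LA.ElementarySubstructure N) := by
  rcases subsingleton_or_nontrivial Λ with h | h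
  · exact ⟨ℕ, natStr, hN.2, trivial_case Λ⟩
  · cases nonempty_fintype Λ
    let bo : BoundedOrder Λ := Fintype.toBoundedOrder Λ
    obtain ⟨M, i1, i2, i3, i4, hMPA, hcount, hns, hprime⟩ := hP
    obtain ⟨t, ht⟩ := hT Λ M
    obtain ⟨D, hD⟩ := hS Λ (hR Λ) M hns t ht
    obtain ⟨U, N, hiso⟩ := hL Λ M hprime t D ht hD
    refine ⟨N, inferInstance, ?_, hiso⟩
    rw [ElementarySubstructure.theory_model_iff, Theory.model_iff]
    intro σ hσ
    rw [Ultraproduct.sentence_realize]
    exact Filter.Eventually.of_forall fun _ => hMPA.realize_of_mem σ hσ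

universe u

/-- a copy of a finite lattice in `Type` -/
theorem small_copy (Λ : Type u) [Lattice Λ] [Finite Λ] [Nonempty Λ] :
    ∃ (Λ' : Type) (_ : Lattice Λ') (_ : Finite Λ') (_ : Nonempty Λ'), Nonempty (Λ ≃o Λ') := by
  obtain ⟨n, ⟨e⟩⟩ := Finite.exists_equiv_fin Λ
  let po : PartialOrder (Fin n) :=
    { le := fun a b => e.symm a ≤ e.symm b
      lt := fun a b => e.symm a < e.symm b
      lt_iff_le_not_ge := fun a b => lt_iff_le_not_ge
      le_refl := fun a => le_refl _
      le_trans := fun a b c h h' => le_trans h h'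
      le_antisymm := fun a b h h' => e.symm.injective (le_antisymm h h') }
  let la : Lattice (Fin n) :=
    { po with
      sup := fun a b => e (e.symm a ⊔ e.symm b)
      inf := fun a b => e (e.symm a ⊓ e.symm b)
      le_sup_left := fun a b => by
        change e.symm a ≤ e.symm (e _)
        rw [e.symm_apply_apply]; exact le_sup_left
      le_sup_right := fun a b => by
        change e.symm b ≤ e.symm (e _)
        rw [e.symm_apply_apply]; exact le_sup_right
      sup_le := fun a b c h h' => by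
        change e.symm (e _) ≤ e.symm c
        rw [e.symm_apply_apply]; exact sup_le h h'
      inf_le_left := fun a b => by
        change e.symm (e _) ≤ e.symm a
        rw [e.symm_apply_apply]; exact inf_le_left
      inf_le_right := fun a b => by
        change e.symm (e _) ≤ e.symm b
        rw [e.symm_apply_apply]; exact inf_le_right
      le_inf := fun a b c h h' => by
        change e.symm a ≤ e.symm (e _)
        rw [e.symm_apply_apply]; exact le_inf h h' }
  refine ⟨Fin n, la, inferInstance, ⟨e (Classical.arbitrary Λ)⟩, ⟨⟨e, ?_⟩⟩⟩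
  intro a b
  change e.symm (e a) ≤ e.symm (e b) ↔ _
  rw [e.symm_apply_apply, e.symm_apply_apply]

theorem main_univ (h : ∀ (Λ : Type) [Lattice Λ] [Finite Λ] [Nonempty Λ],
      ∃ (N : Type) (_ : LA.Structure N), N ⊨ PA ∧ Nonempty (Λ ≃o LA.ElementarySubstructure N))
    (Λ : Type u) [Lattice Λ] [Finite Λ] [Nonempty Λ] :
    ∃ (N : Type) (_ : LA.Structure N), N ⊨ PA ∧ Nonempty (Λ ≃o LA.ElementarySubstructure N) := by
  obtain ⟨Λ', i1, i2, i3, ⟨e⟩⟩ := small_copy Λ
  obtain ⟨N, S, hN, ⟨e'⟩⟩ := h Λ'
  exact ⟨N, S, hN, ⟨e.trans e'⟩⟩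

end Pool.Agent.Helper81.LT
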