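import Pool.Agent.Helper81.LT.Mod

/-!
MP_c20641_lc, Part III: a model of `PA` that is not elementarily equivalent to `ℕ`, and the
nonstandard prime model.  Definitions and goals.
-/

namespace Pool.Agent.Helper81.LT

open FirstOrder Language

attribute [local instance] stdStr

/-- the relation `<` of an `LA`-structure -/
def Lt (M : Type) [LA.Structure M] (x y : M) : Prop :=
  Structure.RelMap (L := LA) (ARel.lt : LA.Relations 2) ![x, y]

/-- the element `1` of an `LA`-structure -/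
def One' (M : Type) [LA.Structure M] : M :=
  Structure.funMap (L := LA) (AFun.one : LA.Functions 0) ![]

/-- the sum in an `LA`-structure -/
def Add' (M : Type) [LA.Structure M] (x y : M) : M :=
  Structure.funMap (L := LA) (AFun.add : LA.Functions 2) ![x, y]

/-- the product in an `LA`-structure -/
def Mul' (M : Type) [LA.Structure M] (x y : M) : M :=
  Structure.funMap (L := LA) (AFun.mul : LA.Functions 2) ![x, y]

/-- Truth with bounded quantifiers: the outermost quantifier is bounded by `ys 0`, the next one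
by `ys 1`, and so on. -/
def Bd {M : Type} [LA.Structure M] : ∀ {n : ℕ}, LA.BoundedFormula Empty n → (ℕ → M) →
    (Fin n → M) → Prop
  | _, .falsum, _, _ => False
  | _, .equal t s, _, xs =>
    t.realize (Sum.elim Empty.elim xs) = s.realize (Sum.elim Empty.elim xs)
  | _, .rel R ts, _, xs => Structure.RelMap R fun i => (ts i).realize (Sum.elim Empty.elim xs)
  | _, .imp φ ψ, ys, xs => Bd φ ys xs → Bd ψ ys xs
  | _, .all φ, ys, xs => ∀ x : M, Lt M x (ys 0) → Bd φ (fun k => ys (k + 1)) (Fin.snoc xs x)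

/-- bounded truth is given by a formula -/
def BFORM : Prop :=
  ∀ (n : ℕ) (φ : LA.BoundedFormula Empty n), ∃ ψ : LA.Formula (Fin n ⊕ ℕ),
    ∀ (M : Type) [LA.Structure M] (xs : Fin n → M) (ys : ℕ → M),
      ψ.Realize (Sum.elim xs ys) ↔ Bd φ ys xs

/-! ### formulas preserved from initial substructures -/

/-- initial substructure -/
def Init {M : Type} [LA.Structure M] (I : LA.Substructure M) : Prop :=
  ∀ x ∈ I, ∀ y, Lt M y x → y ∈ I

/-- preserved from initial substructures to the big structure -/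
def Upf {α : Type} (φ : LA.Formula α) : Prop :=
  ∀ (M : Type) [LA.Structure M] (I : LA.Substructure M), Init I → ∀ v : α → I,
    φ.Realize v → φ.Realize (fun a => (v a : M))

/-- relations on `ℕ` defined by such formulas -/
def Sg {α : Type} (R : (α → ℕ) → Prop) : Prop :=
  ∃ φ : LA.Formula α, Upf φ ∧ ∀ v : α → ℕ, φ.Realize v ↔ R v

/-- terms (no parameters), functions on `ℕ` -/
def TmN {α : Type} (f : (α → ℕ) → ℕ) : Prop := ∃ t : LA.Term α, ∀ v : α → ℕ, t.realize v = f v

/-- closure properties of `Sg` -/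
def SGCL : Prop :=
  (∀ (α : Type) (f g : (α → ℕ) → ℕ), TmN f → TmN g → Sg (fun v => f v = g v)) ∧
  (∀ (α : Type) (f g : (α → ℕ) → ℕ), TmN f → TmN g → Sg (fun v => f v < g v)) ∧
  (∀ (α : Type) (P Q : (α → ℕ) → Prop), Sg P → Sg Q → Sg (fun v => P v ∧ Q v)) ∧
  (∀ (α : Type) (P Q : (α → ℕ) → Prop), Sg P → Sg Q → Sg (fun v => P v ∨ Q v)) ∧
  (∀ (α : Type) (P : (α → ℕ) → ℕ → Prop),
    Sg (fun u : α ⊕ Unit → ℕ => P (fun a => u (Sum.inl a)) (u (Sum.inr ()))) →
      Sg (fun v => ∃ x, P v x)) ∧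
  (∀ (α : Type) (f : (α → ℕ) → ℕ) (P : (α → ℕ) → ℕ → Prop), TmN f →
    Sg (fun u : α ⊕ Unit → ℕ => P (fun a => u (Sum.inl a)) (u (Sum.inr ()))) →
      Sg (fun v => ∀ x, x < f v → P v x)) ∧
  (∀ (α β : Type) (P : (β → ℕ) → Prop) (g : β → (α → ℕ) → ℕ), Sg P → (∀ b, TmN (g b)) →
    Sg (fun v => P (fun b => g b v)))

/-- graphs of primitive recursive functions -/
def PRG : Prop := ∀ f : ℕ → ℕ, Nat.Primrec f → Sg (fun v : Fin 2 → ℕ => f (v 0) = v 1)

/-- primitive recursive relations -/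
def PRR : Prop := ∀ R : ℕ → ℕ → ℕ → ℕ → Prop,
  PrimrecPred (fun p : ℕ × ℕ × ℕ × ℕ => R p.1 p.2.1 p.2.2.1 p.2.2.2) →
    Sg (fun v : Fin 2 → ℕ => ∃ x y, R (v 0) (v 1) x y)

/-! ### the combinatorial principle -/

open Nat.Partrec (Code)

/-- codes of primitive recursive functions: no unbounded search -/
def primB : Code → Bool
  | .zero => true
  | .succ => true
  | .left => true
  | .right => true
  | .pair c d => primB c && primB d
  | .comp c d => primB c && primB d
  | .prec c d => primB c && primB d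
  | .rfind' _ => false

/-- the relation with code `c` -/
def Rc (c : Code) (w l : List ℕ) : Prop :=
  Code.eval c (Nat.pair (Encodable.encode w) (Encodable.encode l)) = Part.some 1

/-- the block `X_i, ..., X_{i+k-1}` -/
def blk (X : ℕ → ℕ) (i k : ℕ) : List ℕ := (List.range k).map fun r => X (i + r)

/-- the sequence `X` (its first `2k + 2` terms) is homogeneous -/
def Hom (k : ℕ) (X : ℕ → ℕ) : Prop :=
  ∀ c : Code, Encodable.encode c < k → primB c = true → ∀ i < k, ∀ w : List ℕ, w.length ≤ k →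
    (∀ e ∈ w, e < X i) → (Rc c w (blk X (i + 1) k) ↔ Rc c w (blk X (i + 2) k))

/-- the combinatorial principle -/
def PP (k b : ℕ) : Prop :=
  ∃ X : ℕ → ℕ, k ≤ X 0 ∧ (∀ i < 2 * k + 1, (X i + 2) * (X i + 2) ≤ X (i + 1)) ∧
    X (2 * k + 1) ≤ b ∧ Hom k X

/-- `PP` is true -/
def PPT : Prop := ∀ k, ∃ b, PP k b

/-- homogeneous sequences, abstractly -/
def DIAG : Prop :=
  ∀ (κ : Type) [Finite κ] (R : κ → List ℕ → List ℕ → Prop) (k : ℕ),
    ∃ X : ℕ → ℕ, k ≤ X 0 ∧ (∀ i, (X i + 2) * (X i + 2) ≤ X (i + 1)) ∧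
      ∀ (c : κ) (i : ℕ) (w : List ℕ), w.length ≤ k → (∀ e ∈ w, e < X i) →
        (R c w (blk X (i + 1) k) ↔ R c w (blk X (i + 2) k))

/-- primitive recursive presentation of `PP`: `x` codes the list `X_0, ..., X_{2k+1}`, `y` is a
bound for the computation times and for the codes of the lists `w` -/
def QQ (k b x y : ℕ) : Prop :=
  let X : List ℕ := Denumerable.ofNat (List ℕ) x
  k ≤ X.getD 0 0 ∧ (∀ i < 2 * k + 1, (X.getD i 0 + 2) * (X.getD i 0 + 2) ≤ X.getD (i + 1) 0) ∧
    X.getD (2 * k + 1) 0 ≤ b ∧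
    Encodable.encode (List.replicate k (X.getD (2 * k + 1) 0)) < y ∧
    ∀ c < k, primB (Denumerable.ofNat Code c) = true → ∀ i < k, ∀ u < y,
      (Denumerable.ofNat (List ℕ) u).length ≤ k →
      (∀ e ∈ Denumerable.ofNat (List ℕ) u, e < X.getD i 0) →
      ∃ o ∈ Code.evaln y (Denumerable.ofNat Code c)
          (Nat.pair u (Encodable.encode (blk (fun j => X.getD j 0) (i + 1) k))),
        ∃ o' ∈ Code.evaln y (Denumerable.ofNat Code c)
          (Nat.pair u (Encodable.encode (blk (fun j => X.getD j 0) (i + 2) k))),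
          (o = 1 ↔ o' = 1)

def QPR : Prop := PrimrecPred (fun p : ℕ × ℕ × ℕ × ℕ => QQ p.1 p.2.1 p.2.2.1 p.2.2.2)

def QEQ : Prop := ∀ k b, PP k b ↔ ∃ x y, QQ k b x y

/-- `PP` is defined by an `Upf`-formula -/
def SGP : Prop := Sg (fun v : Fin 2 → ℕ => PP (v 0) (v 1))

/-- bounded truth in `ℕ` is primitive recursive; the valuation is stored in reversed order -/
def BPR : Prop :=
  ∀ (n : ℕ) (φ : LA.BoundedFormula Empty n),
    PrimrecPred (fun p : List ℕ × List ℕ =>
      Bd φ (fun k => p.2.getD k 0) (fun i : Fin n => p.1.getD (n - 1 - i) 0))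

/-- bounded truth in `ℕ` has a code without unbounded search -/
def BCODE : Prop :=
  ∀ (n : ℕ) (φ : LA.BoundedFormula Empty n), ∃ c : Code, primB c = true ∧
    ∀ w l : List ℕ, Rc c w l ↔
      Bd φ (fun k => l.getD k 0) (fun i : Fin n => w.getD (n - 1 - i) 0)

/-! ### the ultrapower and the initial segment -/

/-- the data obtained in the ultrapower of `ℕ` (`P` is the formula of `SGP`) -/
structure Data (P : LA.Formula (Fin 2)) (M : Type) [LA.Structure M] (x : ℕ → M) (k b : M) :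
    Prop where
  pa : M ⊨ PA
  k_lt : Lt M k (x 0) ∨ k = x 0
  grow : ∀ i, ∀ u, Lt M u (x i) → ∀ v, Lt M v (x i) →
    Lt M (Add' M u v) (x (i + 1)) ∧ Lt M (Mul' M u v) (x (i + 1))
  one_lt : Lt M (One' M) (x 1)
  mono : ∀ i, Lt M (x i) (x (i + 1))
  lt_b : ∀ i, Lt M (x i) b
  hom : ∀ (n : ℕ) (φ : LA.BoundedFormula Empty n) (i : ℕ) (v : Fin n → M),
    (∀ j, Lt M (v j) (x i)) → (Bd φ (fun m => x (i + 1 + m)) v ↔ Bd φ (fun m => x (i + 2 + m)) v)
  least : ∀ b', P.Realize ![k, b'] → ¬ Lt M b' b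

/-- the ultrapower step -/
def ULT : Prop :=
  ∀ P : LA.Formula (Fin 2), (∀ v : Fin 2 → ℕ, P.Realize v ↔ PP (v 0) (v 1)) →
    ∃ (M : Type) (_ : LA.Structure M) (x : ℕ → M) (k b : M), Data P M x k b

/-- truth lemma -/
def TRU : Prop :=
  ∀ (P : LA.Formula (Fin 2)) (M : Type) [LA.Structure M] (x : ℕ → M) (k b : M),
    Data P M x k b → ∀ I : LA.Substructure M, (∀ y, y ∈ I ↔ ∃ i, Lt M y (x i)) →
      ∀ (n : ℕ) (φ : LA.BoundedFormula Empty n) (i : ℕ) (v : Fin n → I),
        (∀ j, Lt M (v j : M) (x i)) →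
          (φ.Realize Empty.elim v ↔ Bd φ (fun m => x (i + 1 + m)) fun j => (v j : M))

/-- the initial segment exists and is a model of `PA` -/
def ISEG : Prop :=
  ∀ (P : LA.Formula (Fin 2)) (M : Type) [LA.Structure M] (x : ℕ → M) (k b : M),
    Data P M x k b → ∃ I : LA.Substructure M, (∀ y, y ∈ I ↔ ∃ i, Lt M y (x i)) ∧ I ⊨ PA

/-- a model of `PA` that is not elementarily equivalent to `ℕ` -/
def NONEQ : Prop :=
  ∃ (M : Type) (_ : LA.Structure M), M ⊨ PA ∧ ∃ σ : LA.Sentence, ℕ ⊨ σ ∧ ¬ M ⊨ σ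

/-- if all elements are standard then the model is elementarily equivalent to `ℕ` -/
def STDEQ : Prop :=
  ∀ (M : Type) [CommSemiring M] [LinearOrder M] [IsStrictOrderedRing M] [PAM M],
    (∀ a : M, ∃ n : ℕ, a = n) → ∀ σ : LA.Sentence, (M ⊨ σ ↔ ℕ ⊨ σ)

/-- the `0`-definable elements form an elementary substructure -/
def PRM : Prop :=
  ∀ (M : Type) [CommSemiring M] [LinearOrder M] [IsStrictOrderedRing M] [PAM M],
    ∃ N : LA.ElementarySubstructure M, ∀ a, a ∈ N ↔
      ∃ φ : LA.Formula Unit, ∀ x, φ.Realize (fun _ => x) ↔ x = a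

/-- a countable nonstandard prime model of `PA` -/
def PRIME : Prop :=
  ∃ (M : Type) (_ : CommSemiring M) (_ : LinearOrder M) (_ : IsStrictOrderedRing M),
    PAM M ∧ @Theory.Model LA M (stdStr M) PA ∧ Countable M ∧ (∃ a : M, ∀ n : ℕ, (n : M) < a) ∧
      ∀ a : M, ∃ φ : LA.Formula Unit, ∀ x, @Formula.Realize LA M (stdStr M) _ φ (fun _ => x) ↔ x = a

end Pool.Agent.Helper81.LT
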