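import Pool.Agent.Helper81.LT.Comb
import Pool.Agent.Helper81.LT.Dfn

/-!
MP_c20641_lc, Part II: from the canonical Ramsey theorem to `Lt(N)`.  Definitions and goals.
-/

namespace Pool.Agent.Helper81.LT

open FirstOrder Language

attribute [local instance] stdStr

/-- `M` (with its `+`, `·`, `<`) satisfies the axioms of Peano arithmetic; induction for all sets
definable with parameters. -/
class PAM (M : Type) [CommSemiring M] [LinearOrder M] [IsStrictOrderedRing M] : Prop where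
  zero_le : ∀ x : M, 0 ≤ x
  succ_le : ∀ x y : M, x < y → x + 1 ≤ y
  exists_add : ∀ x y : M, x ≤ y → ∃ z, y = x + z
  ind : ∀ P : M → Prop, Dfn (fun v : Unit → M => P (v ())) → P 0 → (∀ x, P x → P (x + 1)) →
    ∀ x, P x

/-- every model of `PA` carries the algebraic structure -/
def CONV : Prop :=
  ∀ (M : Type) (S : LA.Structure M), M ⊨ PA →
    ∃ (_ : CommSemiring M) (_ : LinearOrder M) (_ : IsStrictOrderedRing M),
      stdStr M = S ∧ PAM M

/-- the standard model -/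
def NATPA : Prop := PAM ℕ ∧ (ℕ ⊨ PA)

section

variable {M : Type} [CommSemiring M] [LinearOrder M]

/-- `x` is the remainder of `a` modulo `1 + (i + 1) b` -/
def Bt (a b i x : M) : Prop := x < 1 + (i + 1) * b ∧ ∃ q, a = q * (1 + (i + 1) * b) + x

/-- an injective pairing polynomial -/
def pr (x y : M) : M := (x + y) * (x + y) + x

end

def BTU : Prop :=
  ∀ (M : Type) [CommSemiring M] [LinearOrder M] [IsStrictOrderedRing M] [PAM M],
    (∀ a b i x y : M, Bt a b i x → Bt a b i y → x = y) ∧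
    (∀ x y x' y' : M, pr x y = pr x' y' → x = x' ∧ y = y') ∧
    (∀ (n : ℕ) (x : M), x < n → ∃ k : ℕ, k < n ∧ x = k)

def BETA : Prop :=
  ∀ (M : Type) [CommSemiring M] [LinearOrder M] [IsStrictOrderedRing M] [PAM M]
    (m : ℕ) (x : ℕ → M), ∃ a b : M, ∀ i < m, Bt a b (i : M) (x i)

def OVER : Prop :=
  ∀ (M : Type) [CommSemiring M] [LinearOrder M] [IsStrictOrderedRing M] [PAM M],
    (∀ P : M → Prop, Dfn (fun v : Unit → M => P (v ())) → (∃ x, P x) →
      ∃ x, P x ∧ ∀ y, y < x → ¬ P y) ∧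
    (∀ P : M → Prop, Dfn (fun v : Unit → M => P (v ())) → (∃ a : M, ∀ n : ℕ, (n : M) < a) →
      (∀ n : ℕ, P n) → ∃ a : M, (∀ n : ℕ, (n : M) < a) ∧ P a)

/-! ### the definable `Λ`-valued ultrametric on `M` -/

section

variable {Λ : Type} [Lattice Λ] [BoundedOrder Λ] {M : Type} [CommSemiring M] [LinearOrder M]

/-- `(a, b, m)` codes a separated `Λ`-valued ultrametric on `[0, m)` -/
def Val (c : Λ → ℕ) (a b m : M) : Prop :=
  (∀ i, i < m → ∀ j, j < m → ∃ y : Λ, Bt a b (i * m + j) (c y : M)) ∧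
  (∀ i, i < m → Bt a b (i * m + i) (c (⊤ : Λ) : M)) ∧
  (∀ i, i < m → ∀ j, j < m → Bt a b (i * m + j) (c (⊤ : Λ) : M) → i = j) ∧
  (∀ y : Λ, ∀ i, i < m → ∀ j, j < m → Bt a b (i * m + j) (c y : M) →
    Bt a b (j * m + i) (c y : M)) ∧
  (∀ x y z : Λ, ∀ i, i < m → ∀ j, j < m → ∀ l, l < m → Bt a b (i * m + j) (c x : M) →
    Bt a b (j * m + l) (c y : M) → Bt a b (i * m + l) (c z : M) → x ⊓ y ≤ z)

/-- `t(u, v) ≥ x` -/
def Near (c : Λ → ℕ) (x : Λ) (u v : M) : Prop :=
  u = v ∨ x = ⊥ ∨ ∃ a b m i j : M, u = pr (pr a b) (pr m i) ∧ v = pr (pr a b) (pr m j) ∧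
    i < m ∧ j < m ∧ Val c a b m ∧ ∃ y : Λ, x ≤ y ∧ Bt a b (i * m + j) (c y : M)

/-- `t` is a definable, separated, universal `Λ`-valued ultrametric on `M` -/
structure UnivT (t : M → M → Λ) : Prop where
  refl : ∀ a, t a a = ⊤
  sep : ∀ a b, t a b = ⊤ → a = b
  symm : ∀ a b, t a b = t b a
  tri : ∀ a b c, t a b ⊓ t b c ≤ t a c
  dfn : ∀ x : Λ, Dfn (fun v : Fin 2 → M => x ≤ t (v 0) (v 1))
  univ : ∀ S : Sp Λ, Sep S → ∃ f : S.A → ℕ, ∀ a b, t (f a : M) (f b : M) = S.t a b

end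

def TSPA : Prop :=
  ∀ (Λ : Type) [Lattice Λ] [BoundedOrder Λ] [Nontrivial Λ] (c : Λ → ℕ), Function.Injective c →
    ∀ (M : Type) [CommSemiring M] [LinearOrder M] [IsStrictOrderedRing M] [PAM M],
      ∃ t : M → M → Λ, (∀ a, t a a = ⊤) ∧ (∀ a b, t a b = ⊤ → a = b) ∧
        (∀ a b, t a b = t b a) ∧ (∀ a b d, t a b ⊓ t b d ≤ t a d) ∧
        (∀ x u v, x ≤ t u v ↔ Near c x u v)

def TSPB : Prop :=
  ∀ (Λ : Type) [Lattice Λ] [BoundedOrder Λ] [Finite Λ] (c : Λ → ℕ) (M : Type) [CommSemiring M]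
    [LinearOrder M] (x : Λ), Dfn (fun v : Fin 2 → M => Near c x (v 0) (v 1))

def TSPC : Prop :=
  ∀ (Λ : Type) [Lattice Λ] [BoundedOrder Λ] (c : Λ → ℕ), Function.Injective c →
    ∀ (M : Type) [CommSemiring M] [LinearOrder M] [IsStrictOrderedRing M] [PAM M]
      (S : Sp Λ), Sep S → ∃ f : S.A → ℕ, ∀ a b, ∀ x : Λ,
        Near c x (f a : M) (f b : M) ↔ x ≤ S.t a b

/-- all together -/
def TSP : Prop :=
  ∀ (Λ : Type) [Lattice Λ] [BoundedOrder Λ] [Nontrivial Λ] [Finite Λ] (M : Type) [CommSemiring M]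
    [LinearOrder M] [IsStrictOrderedRing M] [PAM M], ∃ t : M → M → Λ, UnivT t

/-! ### rich definable sets -/

section

variable {Λ : Type} [Lattice Λ] [BoundedOrder Λ] {M : Type} [CommSemiring M] [LinearOrder M]

/-- the definable set `D` contains isometric copies of all `([0, n), t)`, `n` standard -/
def Rich (t : M → M → Λ) (D : M → Prop) : Prop :=
  ∀ n : ℕ, ∃ f : ℕ → M, (∀ i < n, D (f i)) ∧ ∀ i < n, ∀ j < n, t (f i) (f j) = t i j

/-- definable subsets -/
def DefS (D : M → Prop) : Prop := Dfn (fun v : Unit → M => D (v ()))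

/-- definable equivalence relations -/
def DefE (Θ : Setoid M) : Prop := Dfn (fun v : Fin 2 → M => Θ (v 0) (v 1))

/-- definable functions -/
def DefF (f : M → M) : Prop := Dfn (fun v : Fin 2 → M => f (v 0) = v 1)

end

def STEP2 : Prop :=
  ∀ (Λ : Type) [Lattice Λ] [BoundedOrder Λ] [Finite Λ], THMS Λ →
    ∀ (M : Type) [CommSemiring M] [LinearOrder M] [IsStrictOrderedRing M] [PAM M],
      (∃ a : M, ∀ n : ℕ, (n : M) < a) → ∀ t : M → M → Λ, UnivT t →
        ∀ D : M → Prop, DefS D → Rich t D → ∀ Θ : Setoid M, DefE Θ →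
          ∃ D' : M → Prop, (∀ u, D' u → D u) ∧ DefS D' ∧ Rich t D' ∧
            ∃ s : Λ, ∀ u v, D' u → D' v → (Θ u v ↔ s ≤ t u v)

/-- the sequence of sets that defines the type -/
structure GSeq {Λ : Type} [Lattice Λ] [BoundedOrder Λ] {M : Type} [CommSemiring M]
    [LinearOrder M] (t : M → M → Λ) (D : ℕ → M → Prop) : Prop where
  anti : ∀ n u, D (n + 1) u → D n u
  dfn : ∀ n, DefS (D n)
  rich : ∀ n, Rich t (D n)
  canon : ∀ Θ : Setoid M, DefE Θ → ∃ n, ∃ s : Λ, ∀ u v, D n u → D n v → (Θ u v ↔ s ≤ t u v)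

def SEQ : Prop :=
  ∀ (Λ : Type) [Lattice Λ] [BoundedOrder Λ] [Finite Λ], THMS Λ →
    ∀ (M : Type) [CommSemiring M] [LinearOrder M] [IsStrictOrderedRing M] [PAM M] [Countable M],
      (∃ a : M, ∀ n : ℕ, (n : M) < a) → ∀ t : M → M → Λ, UnivT t →
        ∃ D : ℕ → M → Prop, GSeq t D

/-! ### the definable ultrapower -/

section

variable {M : Type} [CommSemiring M] [LinearOrder M]

/-- the full ultrapower `M^M / U` -/
abbrev UP (U : Ultrafilter M) : Type := (U : Filter M).Product fun _ => M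

/-- the class of a function -/
def cls (U : Ultrafilter M) (f : M → M) : UP U := (f : (U : Filter M).Product fun _ => M)

end

/-- families of functions closed under definable choice give elementary substructures -/
def TVT : Prop :=
  ∀ (M : Type) [CommSemiring M] [LinearOrder M] [IsStrictOrderedRing M] [PAM M]
    (U : Ultrafilter M) (G : Set (M → M)),
    (∀ (k : ℕ) (φ : LA.Formula (Fin k ⊕ Unit)) (g : Fin k → M → M), (∀ i, g i ∈ G) →
      ∃ w ∈ G, ∀ v, (∃ y, φ.Realize (Sum.elim (fun i => g i v) fun _ => y)) →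
        φ.Realize (Sum.elim (fun i => g i v) fun _ => w v)) →
    ∃ K : LA.ElementarySubstructure (UP U), ∀ z, z ∈ K ↔ ∃ f ∈ G, z = cls U f

/-- the two families of functions that we need are closed under definable choice: the definable
functions, and the definable functions that are constant on the balls of radius `s` of some
`D n` -/
def CHOI : Prop :=
  ∀ (Λ : Type) [Lattice Λ] [BoundedOrder Λ] (M : Type) [CommSemiring M] [LinearOrder M]
    [IsStrictOrderedRing M] [PAM M] (t : M → M → Λ) (D : ℕ → M → Prop),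
    (∀ n u, D (n + 1) u → D n u) → ∀ (Q : Set (M → M)),
    (Q = {f | DefF f} ∨ ∃ s : Λ, Q = {f | DefF f ∧ ∃ n, ∀ u v, D n u → D n v → s ≤ t u v →
      f u = f v}) →
    ∀ (k : ℕ) (φ : LA.Formula (Fin k ⊕ Unit)) (g : Fin k → M → M), (∀ i, g i ∈ Q) →
      ∃ w ∈ Q, ∀ v, (∃ y, φ.Realize (Sum.elim (fun i => g i v) fun _ => y)) →
        φ.Realize (Sum.elim (fun i => g i v) fun _ => w v)

/-- elementary substructures of an elementary substructure -/
def ESB : Prop :=
  ∀ (L : FirstOrder.Language.{0, 0}) (M : Type) [L.Structure M] (N : L.ElementarySubstructure M),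
    Nonempty ({K : L.ElementarySubstructure M // K ≤ N} ≃o L.ElementarySubstructure N)

/-- elementary substructures of the ultrapower are closed under definable functions, if every
element of `M` is definable without parameters -/
def KCL : Prop :=
  ∀ (M : Type) [CommSemiring M] [LinearOrder M] [IsStrictOrderedRing M] [PAM M],
    (∀ a : M, ∃ φ : LA.Formula Unit, ∀ x, φ.Realize (fun _ => x) ↔ x = a) →
    ∀ (U : Ultrafilter M) (K : LA.ElementarySubstructure (UP U)) (k : ℕ)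
      (g : (Fin k → M) → M), Dfn (fun v : Fin (k + 1) → M => g (fun i => v i.castSucc) =
        v (Fin.last k)) →
      ∀ f : Fin k → M → M, (∀ i, cls U (f i) ∈ K) → cls U (fun v => g fun i => f i v) ∈ K

/-- the subsets of `M` definable and in `U` contain some `D n` -/
def GENU : Prop :=
  ∀ (Λ : Type) [Lattice Λ] [BoundedOrder Λ] [Nontrivial Λ] [Finite Λ] (M : Type)
    [CommSemiring M] [LinearOrder M] [IsStrictOrderedRing M] [PAM M] (t : M → M → Λ)
    (D : ℕ → M → Prop), UnivT t → GSeq t D → ∀ U : Ultrafilter M, (∀ n, ∀ᶠ u in U, D n u) →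
      ∀ E : M → Prop, DefS E → (∀ᶠ u in U, E u) → ∃ n, ∀ u, D n u → E u

/-- `f` is constant on the balls of radius `s` of some `D n` -/
def ConstOn {Λ : Type} [Lattice Λ] {M : Type} (t : M → M → Λ) (D : ℕ → M → Prop) (s : Λ)
    (f : M → M) : Prop := ∃ n, ∀ u v, D n u → D n v → s ≤ t u v → f u = f v

/-- the least element of the ball of radius `s` -/
def RS : Prop :=
  ∀ (Λ : Type) [Lattice Λ] [BoundedOrder Λ] (M : Type) [CommSemiring M] [LinearOrder M]
    [IsStrictOrderedRing M] [PAM M] (t : M → M → Λ), UnivT t → ∀ s : Λ,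
      ∃ r : M → M, DefF r ∧ (∀ u, s ≤ t u (r u)) ∧ ∀ u v, s ≤ t u v → r u = r v

def ORDK : Prop :=
  ∀ (Λ : Type) [Lattice Λ] [BoundedOrder Λ] [Nontrivial Λ] [Finite Λ] (M : Type)
    [CommSemiring M] [LinearOrder M] [IsStrictOrderedRing M] [PAM M] (t : M → M → Λ)
    (D : ℕ → M → Prop), UnivT t → GSeq t D → ∀ U : Ultrafilter M, (∀ n, ∀ᶠ u in U, D n u) →
      ∀ s s' : Λ, (∀ f, DefF f → ConstOn t D s f → ∃ g, DefF g ∧ ConstOn t D s' g ∧
        cls U f = cls U g) → s ≤ s'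

def SURK : Prop :=
  ∀ (Λ : Type) [Lattice Λ] [BoundedOrder Λ] [Nontrivial Λ] [Finite Λ] (M : Type)
    [CommSemiring M] [LinearOrder M] [IsStrictOrderedRing M] [PAM M],
    (∀ a : M, ∃ φ : LA.Formula Unit, ∀ x, φ.Realize (fun _ => x) ↔ x = a) →
    ∀ (t : M → M → Λ) (D : ℕ → M → Prop), UnivT t → GSeq t D → ∀ U : Ultrafilter M,
      (∀ n, ∀ᶠ u in U, D n u) → ∀ K : LA.ElementarySubstructure (UP U),
        (∀ z ∈ K, ∃ f, DefF f ∧ z = cls U f) →
          ∃ s : Λ, ∀ z, z ∈ K ↔ ∃ f, DefF f ∧ ConstOn t D s f ∧ z = cls U f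

/-- formulas in countably many variables -/
def CNT : Prop := ∀ α : Type, Countable α → Countable (LA.Formula α)

/-- the main theorem of Part II -/
def LATT : Prop :=
  ∀ (Λ : Type) [Lattice Λ] [BoundedOrder Λ] [Nontrivial Λ] [Finite Λ] (M : Type)
    [CommSemiring M] [LinearOrder M] [IsStrictOrderedRing M] [PAM M],
    (∀ a : M, ∃ φ : LA.Formula Unit, ∀ x, φ.Realize (fun _ => x) ↔ x = a) →
    ∀ (t : M → M → Λ) (D : ℕ → M → Prop), UnivT t → GSeq t D →
      ∃ (U : Ultrafilter M) (N : LA.ElementarySubstructure (UP U)),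
        Nonempty (Λ ≃o LA.ElementarySubstructure N)

end Pool.Agent.Helper81.LT
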