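import Pool.Agent.Helper81.LT.Inc

/-!
MP_c20641_lc: a model of `PA` that is not elementarily equivalent to `ℕ` (assembly).
-/

namespace Pool.Agent.Helper81.LT

open FirstOrder Language

/-- the sentence `∀ k, ∃ b, P(k, b)` -/
noncomputable def allEx (P : LA.Formula (Fin 2)) : LA.Sentence :=
  Formula.iAlls Unit (Formula.iExs Unit
    (Formula.relabel (![Sum.inl (Sum.inr ()), Sum.inr ()] : Fin 2 → (Empty ⊕ Unit) ⊕ Unit) P))

theorem realize_allEx (P : LA.Formula (Fin 2)) (M : Type) [LA.Structure M] :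
    M ⊨ allEx P ↔ ∀ k : M, ∃ b : M, P.Realize ![k, b] := by
  rw [allEx, Sentence.Realize, Formula.realize_iAlls]
  constructor
  · intro h k
    have h1 := h fun _ => k
    rw [Formula.realize_iExs] at h1
    obtain ⟨w, hw⟩ := h1
    rw [Formula.realize_relabel] at hw
    refine ⟨w (), ?_⟩
    convert hw using 1
    funext i
    fin_cases i <;> rfl
  · intro h w
    rw [Formula.realize_iExs]
    obtain ⟨b, hb⟩ := h (w ())
    refine ⟨fun _ => b, ?_⟩
    rw [Formula.realize_relabel]
    convert hb using 1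
    funext i
    fin_cases i <;> rfl

theorem noneq (hC : CONV) (hS : SGP) (hU : ULT) (hI : ISEG) (hP : PPT) : NONEQ := by
  obtain ⟨P, hPup, hPr⟩ := hS
  obtain ⟨M, SM, x, k, b, hD⟩ := hU P hPr
  obtain ⟨I, hImem, hIPA⟩ := hI P M x k b hD
  refine ⟨I, inferInstance, hIPA, allEx P, ?_, ?_⟩
  · rw [realize_allEx]
    intro k
    obtain ⟨b, hb⟩ := hP k
    exact ⟨b, (hPr ![k, b]).2 hb⟩
  · rw [realize_allEx]
    intro h
    -- transitivity of `<` in `M`
    have htr : ∀ u v w : M, Lt M u v → Lt M v w → Lt M u w := by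
      obtain ⟨i1, i2, i3, hstr, -⟩ := hC M SM hD.pa
      subst hstr
      intro u v w huv hvw
      exact lt_trans (a := u) (b := v) (c := w) huv hvw
    have hk : k ∈ I := by
      rw [hImem]
      rcases hD.k_lt with h1 | h1
      · exact ⟨0, h1⟩
      · exact ⟨1, h1 ▸ hD.mono 0⟩
    obtain ⟨b', hb'⟩ := h ⟨k, hk⟩
    have hinit : Init I := by
      intro u hu v hv
      rw [hImem] at hu ⊢
      obtain ⟨i, hi⟩ := hu
      exact ⟨i, htr _ _ _ hv hi⟩
    have h2 := hPup M I hinit _ hb'
    have h3 : P.Realize ![k, (b' : M)] := by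
      convert h2 using 1
      funext i
      fin_cases i <;> rfl
    refine hD.least _ h3 ?_
    obtain ⟨i, hi⟩ := (hImem _).1 b'.2
    exact htr _ _ _ hi (hD.lt_b i)

end Pool.Agent.Helper81.LT
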