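import Pool.Agent.Helper81.LT.Mod

/-!
Packet TSPC (MP_c20641_lc).
-/

namespace Pool.Agent.Helper81.LT

theorem bt_cast {M : Type} [CommSemiring M] [LinearOrder M] [IsStrictOrderedRing M]
    {a b i x : ℕ} (h : Bt a b i x) : Bt (a : M) (b : M) (i : M) (x : M) := by
  obtain ⟨h1, q, hq⟩ := h
  refine ⟨by exact_mod_cast h1, (q : M), ?_⟩
  rw [hq]
  push_cast
  rfl

theorem tspc (h : BTU) (hβ : BETA) (hN : NATPA) : TSPC := by
  intro Λ _ _ c hc M _ _ _ _ S hS
  classical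
  haveI := S.fin
  obtain ⟨n, ⟨e⟩⟩ := Finite.exists_equiv_fin S.A
  haveI := hN.1
  let g : ℕ → ℕ := fun k => if hk : k / n < n ∧ k % n < n then
    c (S.t (e.symm ⟨k / n, hk.1⟩) (e.symm ⟨k % n, hk.2⟩)) else 0
  obtain ⟨a, b, hab⟩ := hβ ℕ (n * n) g
  obtain ⟨u1, u2, u3⟩ := h M
  have key : ∀ i j : Fin n, Bt (a : M) (b : M) (((i : ℕ) : M) * (n : M) + ((j : ℕ) : M))
      (c (S.t (e.symm i) (e.symm j)) : M) := by
    intro i j
    have hn : 0 < n := i.pos
    have h1 : (i : ℕ) * n + j < n * n := by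
      calc (i : ℕ) * n + j < i * n + n := by omega
        _ = (i + 1) * n := by ring
        _ ≤ n * n := Nat.mul_le_mul_right _ i.2
    have h2 : ((i : ℕ) * n + j) / n = i := by
      rw [Nat.add_comm, Nat.add_mul_div_right _ _ hn, Nat.div_eq_of_lt j.2, zero_add]
    have h3 : ((i : ℕ) * n + j) % n = j := by
      rw [Nat.add_comm, Nat.add_mul_mod_self_right, Nat.mod_eq_of_lt j.2]
    have h4 := hab _ h1
    have h5 : g ((i : ℕ) * n + j) = c (S.t (e.symm i) (e.symm j)) := by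
      have hh : ((i : ℕ) * n + j) / n < n ∧ ((i : ℕ) * n + j) % n < n := by
        rw [h2, h3]; exact ⟨i.2, j.2⟩
      have hi : (⟨((i : ℕ) * n + j) / n, hh.1⟩ : Fin n) = i := Fin.ext h2
      have hj : (⟨((i : ℕ) * n + j) % n, hh.2⟩ : Fin n) = j := Fin.ext h3
      simp only [g]
      rw [dif_pos hh, hi, hj]
    rw [h5] at h4
    have h6 := bt_cast (M := M) h4
    push_cast at h6
    exact h6
  have uniq : ∀ (i j : Fin n) (y : Λ), Bt (a : M) (b : M) (((i : ℕ) : M) * (n : M) + ((j : ℕ) : M))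
      (c y : M) → y = S.t (e.symm i) (e.symm j) := by
    intro i j y hy
    have h1 := u1 _ _ _ _ _ hy (key i j)
    exact hc (by exact_mod_cast h1)
  have lt3 : ∀ x : M, x < (n : M) → ∃ k : Fin n, x = ((k : ℕ) : M) := by
    intro x hx
    obtain ⟨k, hk, hxk⟩ := u3 n x hx
    exact ⟨⟨k, hk⟩, hxk⟩
  have val : Val c (a : M) (b : M) (n : M) := by
    refine ⟨?_, ?_, ?_, ?_, ?_⟩
    · intro i hi j hj
      obtain ⟨i, rfl⟩ := lt3 i hi
      obtain ⟨j, rfl⟩ := lt3 j hj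
      exact ⟨_, key i j⟩
    · intro i hi
      obtain ⟨i, rfl⟩ := lt3 i hi
      have h1 := key i i
      rw [S.refl] at h1
      exact h1
    · intro i hi j hj h1
      obtain ⟨i, rfl⟩ := lt3 i hi
      obtain ⟨j, rfl⟩ := lt3 j hj
      have h2 := uniq i j _ h1
      have h3 := hS _ _ h2.symm
      have h4 : i = j := e.symm.injective h3
      rw [h4]
    · intro y i hi j hj h1
      obtain ⟨i, rfl⟩ := lt3 i hi
      obtain ⟨j, rfl⟩ := lt3 j hj
      have h2 := uniq i j _ h1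
      rw [h2, S.symm]
      exact key j i
    · intro x y z i hi j hj l hl h1 h2 h3
      obtain ⟨i, rfl⟩ := lt3 i hi
      obtain ⟨j, rfl⟩ := lt3 j hj
      obtain ⟨l, rfl⟩ := lt3 l hl
      rw [uniq i j _ h1, uniq j l _ h2, uniq i l _ h3]
      exact S.tri _ _ _
  refine ⟨fun s => pr (pr a b) (pr n (e s : ℕ)), ?_⟩
  have cst : ∀ s : S.A, ((pr (pr a b) (pr n (e s : ℕ)) : ℕ) : M) =
      pr (pr (a : M) (b : M)) (pr (n : M) ((e s : ℕ) : M)) := by
    intro s
    unfold pr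
    push_cast
    rfl
  intro s s' x
  simp only [cst]
  constructor
  · rintro (h1 | h1 | ⟨a', b', m', i, j, h1, h2, hi, hj, -, y, hxy, hy⟩)
    · have h2 := (u2 _ _ _ _ h1).2
      have h3 := (u2 _ _ _ _ h2).2
      have h4 : ((e s : ℕ)) = (e s' : ℕ) := by exact_mod_cast h3
      have h5 : s = s' := e.injective (Fin.ext h4)
      rw [h5, S.refl]
      exact le_top
    · rw [h1]
      exact bot_le
    · obtain ⟨h3, h4⟩ := u2 _ _ _ _ h1
      obtain ⟨h5, h6⟩ := u2 _ _ _ _ h2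
      obtain ⟨ha, hb⟩ := u2 _ _ _ _ h3
      obtain ⟨hm, hi'⟩ := u2 _ _ _ _ h4
      obtain ⟨-, hj'⟩ := u2 _ _ _ _ h6
      rw [← ha, ← hb, ← hm, ← hi', ← hj'] at hy
      have h7 := uniq (e s) (e s') y hy
      rw [e.symm_apply_apply, e.symm_apply_apply] at h7
      rw [← h7]
      exact hxy
  · intro hx
    refine Or.inr (Or.inr ⟨a, b, n, _, _, rfl, rfl, ?_, ?_, val, S.t s s', hx, ?_⟩)
    · exact_mod_cast (e s).2
    · exact_mod_cast (e s').2
    · have h1 := key (e s) (e s')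
      rw [e.symm_apply_apply, e.symm_apply_apply] at h1
      exact h1

end Pool.Agent.Helper81.LT
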